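import Pool.Agent.Helper2.UN.CDefs
import Pool.Agent.Helper88.MT.Simple
import Pool.Agent.Helper40.TR.B45
import Pool.Agent.Helper16.TR.B1
import Pool.Agent.Helper88.TR.RootData

/-!
MP_b8862a_ag, unitary (type IV) theorem, block LA: irreducible Lie algebras of operators of trace
zero are semisimple; if a Cartan subalgebra contains an element whose eigenvalues are `c` and
`c - 1`, root vectors have square zero; multiplicity one; the root system situation.
-/

open Module LieModule LieAlgebra LieAlgebra.IsKilling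

attribute [local instance 100] LieRing.ofAssociativeRing

namespace UN

open MTP MTP.MF Pool.Agent.Helper54.MT

variable {K : Type*} [Field K] [CharZero K] [IsAlgClosed K] {V : Type*} [AddCommGroup V]
  [Module K V] [FiniteDimensional K V]

/-- LA1: an irreducible Lie algebra of operators of trace zero is semisimple. -/
theorem killing_tr [Nontrivial V] {L : LieSubalgebra K (Module.End K V)}
    (hirr : ∀ W : Submodule K V, (∀ z ∈ L, ∀ w ∈ W, z w ∈ W) → W = ⊥ ∨ W = ⊤)
    (htr : ∀ z ∈ L, LinearMap.trace K V z = 0) : IsKilling K L := by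
  have key : ∀ N : LieSubmodule K L V, N = ⊥ ∨ N = ⊤ := by
    intro N
    rcases hirr N.toSubmodule (fun z hz w hw => N.lie_mem (x := (⟨z, hz⟩ : L)) hw) with h | h
    · left
      exact (LieSubmodule.toSubmodule_eq_bot N).mp h
    · right
      exact (LieSubmodule.toSubmodule_eq_top N).mp h
  have : LieModule.IsIrreducible K L V :=
    { exists_pair_ne := ⟨⊥, ⊤, bot_ne_top⟩, eq_bot_or_eq_top := key }
  have : LieModule.IsFaithful K L V := faithful_of
  have : LieAlgebra.HasTrivialRadical K L := by
    apply LieAlgebra.hasTrivialRadical_of_isIrreducible_of_isFaithful K L V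
    intro x
    exact htr x x.2
  exact inferInstance

section module
variable {L : Type*} [LieRing L] [LieAlgebra K L] [FiniteDimensional K L] [IsKilling K L]
  {H : LieSubalgebra K L} [H.IsCartanSubalgebra]
  [LieRingModule L V] [LieModule K L V] {I : Type*} [Fintype I] (B : WB (V := V) H I)

namespace LA

/-- A root which does not vanish on `s` takes the value one or minus one. -/
lemma root_val (hfaith : ∀ x : L, (∀ u : V, ⁅x, u⁆ = 0) → x = 0)
    {s : H} {c : K} (hs : ∀ i, B.w i s = c ∨ B.w i s = c - 1) (α : H.root) (h0 : α.1 s ≠ 0) :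
    α.1 s = 1 ∨ α.1 s = -1 := by
  obtain ⟨i, j, hij⟩ := B.root_apply hfaith α
  have h1 := hij s
  rcases hs i with h2 | h2 <;> rcases hs j with h3 | h3 <;> rw [h2, h3] at h1
  · exact absurd (by linear_combination -h1) h0
  · right; linear_combination -h1
  · left; linear_combination -h1
  · exact absurd (by linear_combination -h1) h0

/-- Roots which do not vanish on `s`. -/
lemma sq_zero_of_ne (hfaith : ∀ x : L, (∀ u : V, ⁅x, u⁆ = 0) → x = 0)
    {s : H} {c : K} (hs : ∀ i, B.w i s = c ∨ B.w i s = c - 1) (α : H.root) (h0 : α.1 s ≠ 0)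
    {x : L} (hx : x ∈ rootSpace H α.1) (u : V) : ⁅x, ⁅x, u⁆⁆ = 0 := by
  classical
  rw [← B.v.sum_repr u, lie_sum, lie_sum]
  refine Finset.sum_eq_zero fun i _ => ?_
  rw [lie_smul, lie_smul]
  have h1 : ⁅x, ⁅x, B.v i⁆⁆ = 0 := by
    apply B.v.repr.injective
    rw [map_zero]
    ext j
    by_contra hj
    have h2 : ⁅(s : L), ⁅x, ⁅x, B.v i⁆⁆⁆ = (2 * α.1 s + B.w i s) • ⁅x, ⁅x, B.v i⁆⁆ := by
      rw [leibniz_lie, lie_root hx, B.lie_root_v hx, smul_lie, lie_smul, ← add_smul]
      congr 1
      ring
    have h3 := B.coord h2 hj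
    have g1 : (1 : K) ≠ 0 := one_ne_zero
    have g2 : (2 : K) ≠ 0 := two_ne_zero
    have g3 : (3 : K) ≠ 0 := three_ne_zero
    rcases root_val B hfaith hs α h0 with h4 | h4 <;> rcases hs i with h5 | h5 <;>
      rcases hs j with h6 | h6 <;> rw [h4, h5, h6] at h3
    · exact g2 (by linear_combination -h3)
    · exact g3 (by linear_combination -h3)
    · exact g1 (by linear_combination -h3)
    · exact g2 (by linear_combination -h3)
    · exact g2 (by linear_combination h3)
    · exact g1 (by linear_combination h3)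
    · exact g3 (by linear_combination h3)
    · exact g2 (by linear_combination h3)
  rw [h1, smul_zero]

/-- The set of elements with eigenvalues `c` and `c - 1` is stable under reflections. -/
lemma stable (hfaith : ∀ x : L, (∀ u : V, ⁅x, u⁆ = 0) → x = 0)
    {s : H} {c : K} (hs : ∀ i, B.w i s = c ∨ B.w i s = c - 1) (β : H.root) (i : I) :
    B.w i ((rootSystem H).coreflection β s) = c ∨
      B.w i ((rootSystem H).coreflection β s) = c - 1 := by
  have hc : (rootSystem H).coreflection β s = s - β.1 s • coroot β.1 := rfl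
  rw [hc, map_sub, map_smul, smul_eq_mul]
  by_cases h0 : β.1 s = 0
  · rw [h0, zero_mul, sub_zero]; exact hs i
  obtain ⟨h, e, f, ht, he, hf⟩ := exists_isSl2Triple_of_weight_isNonZero
    (H.isNonZero_coe_root β)
  rw [ht.h_eq_coroot (H.isNonZero_coe_root β) he hf] at ht
  have hee := fun u => sq_zero_of_ne B hfaith hs β h0 he (u := u)
  have hf' : f ∈ rootSpace H (TR.nroot β).1 := hf
  have h0' : (TR.nroot β).1 s ≠ 0 := by
    intro h
    apply h0
    have : -(β.1 s) = 0 := h
    exact neg_eq_zero.mp this
  have hff := fun u => sq_zero_of_ne B hfaith hs (TR.nroot β) h0' hf' (u := u)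
  have ht' : IsSl2Triple ((coroot (TR.nroot β).1 : H) : L) f e := by
    have h1 : ((coroot (TR.nroot β).1 : H) : L) = -((coroot β.1 : H) : L) := by
      have : coroot (TR.nroot β).1 = - coroot β.1 := coroot_neg β.1
      rw [this]; rfl
    rw [h1]
    exact ht.symm
  by_cases h1 : ⁅e, B.v i⁆ = 0
  · by_cases h2 : ⁅f, B.v i⁆ = 0
    · have h3 : ⁅((coroot β.1 : H) : L), B.v i⁆ = 0 := by
        rw [← ht.lie_e_f, lie_lie, h1, h2, lie_zero, lie_zero, sub_zero]
      rw [B.lie_v] at h3
      have h4 := (smul_eq_zero.mp h3).resolve_right (B.v.ne_zero i)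
      rw [h4, mul_zero, sub_zero]; exact hs i
    · obtain ⟨h3, j, hj⟩ := TR.eigen_shift B ht' hf' hff i h2
      have h4 : coroot (TR.nroot β).1 = - coroot β.1 := coroot_neg β.1
      rw [h4, map_neg] at h3
      have h5 := hj s
      have h6 : (TR.nroot β).1 s = -(β.1 s) := rfl
      rw [h6] at h5
      have h7 : B.w i s - β.1 s * B.w i (coroot β.1) = B.w j s := by
        rw [h5]; linear_combination (β.1 s) * h3
      rw [h7]; exact hs j
  · obtain ⟨h3, j, hj⟩ := TR.eigen_shift B ht he hee i h1
    have h5 := hj s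
    have h7 : B.w i s - β.1 s * B.w i (coroot β.1) = B.w j s := by
      rw [h5, h3]; ring
    rw [h7]; exact hs j

end LA

/-- LA2: root vectors have square zero. -/
theorem sq_zero (hfaith : ∀ x : L, (∀ u : V, ⁅x, u⁆ = 0) → x = 0) {s : H} {c : K}
    (hs : ∀ i, B.w i s = c ∨ B.w i s = c - 1) (hs0 : s ≠ 0) [(rootSystem H).IsIrreducible]
    (α : H.root) {x : L} (hx : x ∈ rootSpace H α.1) :
    toEnd K L V x * toEnd K L V x = 0 := by
  let q : Submodule K H := Submodule.span K {t : H | ∀ i, B.w i t = c ∨ B.w i t = c - 1}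
  have hq : q = ⊤ := by
    apply RootPairing.IsIrreducible.eq_top_of_invtSubmodule_coreflection (P := rootSystem H) q
    · intro β
      rw [Module.End.mem_invtSubmodule]
      intro t ht
      rw [Submodule.mem_comap]
      induction ht using Submodule.span_induction with
      | zero => simp
      | add a b _ _ ha hb => rw [map_add]; exact add_mem ha hb
      | smul c a _ ha => rw [map_smul]; exact Submodule.smul_mem _ _ ha
      | mem t ht => exact Submodule.subset_span (fun i => LA.stable B hfaith ht β i)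
    · intro h
      have h1 : s ∈ q := Submodule.subset_span hs
      rw [h, Submodule.mem_bot] at h1
      exact hs0 h1
  obtain ⟨t, ht, ht0⟩ : ∃ t : H, (∀ i, B.w i t = c ∨ B.w i t = c - 1) ∧ α.1 t ≠ 0 := by
    by_contra! hcon
    have h1 : q ≤ LinearMap.ker (α.1.toLinear) := by
      rw [Submodule.span_le]
      intro t ht
      exact hcon t ht
    rw [hq, top_le_iff, LinearMap.ker_eq_top] at h1
    apply H.isNonZero_coe_root α
    ext t
    exact LinearMap.congr_fun h1 t
  ext u
  exact LA.sq_zero_of_ne B hfaith ht α ht0 hx u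

/-- LA3: multiplicity one. -/
theorem mult_one [Nonempty H.root]
    (hirr : ∀ W : Submodule K V, (∀ x : L, ∀ u ∈ W, ⁅x, u⁆ ∈ W) → W = ⊥ ∨ W = ⊤)
    (hsq : ∀ (α : H.root) (x : L), x ∈ rootSpace H α.1 →
      toEnd K L V x * toEnd K L V x = 0) : Function.Injective B.w := by
  classical
  rcases isEmpty_or_nonempty I with hI | hI
  · exact fun i => isEmptyElim i
  obtain ⟨b⟩ := (rootSystem H).nonempty_base
  obtain ⟨c, hc⟩ : ∃ c : I → ℤ, ∀ i, B.w i (rho2 b) = (c i : K) := by
    have h1 : ∀ i, ∃ n : ℤ, B.w i (rho2 b) = (n : K) := by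
      intro i
      have h2 : ∀ α : H.root, ∃ n : ℤ, B.w i (coroot α.1) = (n : K) := by
        intro α
        obtain ⟨a, ha, _⟩ := (TR.B45.small' B hsq i).int α
        exact ⟨a, ha⟩
      choose n hn using h2
      refine ⟨∑ α with b.IsPos α, n α, ?_⟩
      rw [rho2, map_sum, Int.cast_sum]
      refine Finset.sum_congr rfl fun α _ => ?_
      exact hn α
    choose c hc using h1
    exact ⟨c, hc⟩
  obtain ⟨t, ht⟩ := Finite.exists_max c
  have huniq := top_unique B hirr b hc ht
  have key := B.conn hirr {i | ∀ i', B.w i' = B.w i → i' = i} ⟨t, ?_⟩ ?_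
  · intro i j hij
    exact key j i hij
  · intro i hi
    apply huniq
    have h1 := hc i
    rw [hi, hc t] at h1
    exact_mod_cast h1.symm
  · intro α i j hi hj j' hj'
    obtain ⟨e, f, htr, he, hf⟩ := exists_triple α
    have hval : B.w j (coroot α.1) = 2 + B.w i (coroot α.1) := by
      rw [hj, root_apply_coroot (H.isNonZero_coe_root α)]
    have hwi : B.w i = B.w j - α.1.toLinear := by
      ext h
      rw [LinearMap.sub_apply, hj h, Weight.toLinear_apply]
      ring
    -- the value of `w j` on the coroot is one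
    have hj1 : B.w j (coroot α.1) = 1 := by
      have h1 := TR.B45.small' B hsq i α
      have h2 := TR.B45.small' B hsq j α
      rw [TR.B45.coroot'_eq] at h1 h2
      rcases h2 with h2 | h2 | h2
      · exfalso
        rw [h2] at hval
        have h3 : B.w i (coroot α.1) = -3 := by linear_combination -hval
        rw [h3] at h1
        rcases h1 with h1 | h1 | h1 <;> norm_num at h1
      · exfalso
        rw [h2] at hval
        have h3 : B.w i (coroot α.1) = -2 := by linear_combination -hval
        rw [h3] at h1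
        rcases h1 with h1 | h1 | h1 <;> norm_num at h1
      · exact h2
    -- `f` maps both vectors to multiples of `v i`
    have key1 : ∀ k, B.w k = B.w j → ∃ a : K, ⁅f, B.v k⁆ = a • B.v i ∧ ⁅e, ⁅f, B.v k⁆⁆ = B.v k := by
      intro k hk
      have h3 : ⁅e, ⁅f, B.v k⁆⁆ = B.v k := by
        rcases TR.B45.cases B hsq k htr he hf with ⟨h1, h2, h3⟩ | h1 | ⟨h1, h2, h3⟩
        · exfalso
          rw [hk, hj1] at h1
          norm_num at h1
        · exfalso
          rw [hk, hj1] at h1
          exact one_ne_zero h1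
        · exact h3
      refine ⟨B.v.repr ⁅f, B.v k⁆ i, ?_, h3⟩
      apply B.v.repr.injective
      ext l
      rw [map_smul, B.v.repr_self, Finsupp.smul_apply, Finsupp.single_apply, smul_eq_mul]
      split_ifs with h
      · rw [h, mul_one]
      · rw [mul_zero]
        by_contra hl
        apply h
        have h4 := TR.B45.coord_neg B hf hl
        rw [hk, ← hwi] at h4
        exact (hi l h4).symm
    obtain ⟨a, ha, ha'⟩ := key1 j rfl
    obtain ⟨a', hb, hb'⟩ := key1 j' hj'
    by_contra hne
    rw [ha, lie_smul] at ha'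
    rw [hb, lie_smul] at hb'
    have h5 : a' • B.v j = a • B.v j' := by
      rw [← ha', ← hb', smul_comm]
    have h6 := congrArg (fun u => B.v.repr u j') h5
    simp only [map_smul, Finsupp.smul_apply, B.v.repr_self, Finsupp.single_apply,
      smul_eq_mul] at h6
    rw [if_neg (Ne.symm hne)] at h6
    simp only [mul_zero, if_true, mul_one] at h6
    rw [← h6, zero_smul] at ha'
    exact B.v.ne_zero j ha'.symm

open Classical in
/-- LA4: the root system situation. -/
theorem usit (hirr : ∀ W : Submodule K V, (∀ x : L, ∀ u ∈ W, ⁅x, u⁆ ∈ W) → W = ⊥ ∨ W = ⊤)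
    (hfaith : ∀ x : L, (∀ u : V, ⁅x, u⁆ = 0) → x = 0)
    (hsq : ∀ (α : H.root) (x : L), x ∈ rootSpace H α.1 →
      toEnd K L V x * toEnd K L V x = 0) {s : H} {c : K}
    (hs : ∀ i, B.w i s = c ∨ B.w i s = c - 1) (hs0 : s ≠ 0) :
    USit (rootSystem H) (Finset.univ.image B.w) (Module.Dual.eval K H s) c := by
  refine ⟨⟨?_, ?_, ?_⟩, ?_, ?_, ?_⟩
  · intro x hx
    obtain ⟨i, _, rfl⟩ := Finset.mem_image.mp hx
    exact TR.B45.small' B hsq i
  · intro x hx α
    obtain ⟨i, _, rfl⟩ := Finset.mem_image.mp hx
    obtain ⟨j, hj⟩ := TR.B45.exists_refl B hsq i α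
    exact Finset.mem_image.mpr ⟨j, Finset.mem_univ _, hj⟩
  · intro x hx y hy
    obtain ⟨i, _, rfl⟩ := Finset.mem_image.mp hx
    obtain ⟨j, _, rfl⟩ := Finset.mem_image.mp hy
    have key := B.conn hirr {j | ∃ l : List H.root,
      B.w i = B.w j + (l.map (rootSystem H).root).sum} ⟨i, [], by simp⟩ ?_
    · exact key j
    · rintro α j k ⟨l, hl⟩ hk
      have hk' : B.w k = (rootSystem H).root α + B.w j := by
        ext h
        rw [hk h]; rfl
      refine ⟨(rootSystem H).reflectionPerm α α :: l, ?_⟩
      rw [List.map_cons, List.sum_cons, RootPairing.root_reflectionPerm,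
        RootPairing.reflection_apply_self, hk', hl]
      abel
  · intro x hx
    obtain ⟨i, _, rfl⟩ := Finset.mem_image.mp hx
    exact hs i
  · intro α
    obtain ⟨e, f, ht, he, hf⟩ := exists_triple α
    -- the root vector does not act as zero
    have h1 : ∃ i, ⁅e, B.v i⁆ ≠ 0 := by
      by_contra! hcon
      refine ht.e_ne_zero (hfaith e fun u => ?_)
      rw [← B.v.sum_repr u, lie_sum]
      refine Finset.sum_eq_zero fun j _ => ?_
      rw [lie_smul, hcon, smul_zero]
    obtain ⟨i, hi⟩ := h1
    obtain ⟨h2, j, hj⟩ := TR.eigen_shift B ht he (fun u => TR.B45.lie_lie_zero hsq he u) i hi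
    refine ⟨B.w j, Finset.mem_image.mpr ⟨j, Finset.mem_univ _, rfl⟩, ?_⟩
    rw [TR.B45.coroot'_eq, hj, h2, root_apply_coroot (H.isNonZero_coe_root α)]
    ring
  · by_contra! hcon
    apply hs0
    have h1 : (rootSystem H).rootSpan K ≤ LinearMap.ker (Module.Dual.eval K H s) := by
      rw [RootPairing.rootSpan, Submodule.span_le]
      rintro _ ⟨α, rfl⟩
      exact hcon α
    have h2 : (rootSystem H).rootSpan K = ⊤ := RootPairing.IsRootSystem.span_root_eq_top
    rw [h2, top_le_iff, LinearMap.ker_eq_top] at h1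
    exact (Module.forall_dual_apply_eq_zero_iff K s).mp fun φ => LinearMap.congr_fun h1 φ

end module

end UN
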