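import Pool.Agent.Helper88.UN.LA
import Pool.Agent.Helper2.UN.CR1
import Pool.Agent.Helper16.UN.CR2
import Pool.Agent.Helper55.UN.CR3
import Pool.Agent.Helper80.UN.RP1
import Pool.Agent.Helper20.UN.RP2
import Pool.Agent.Helper75.UN.LB
import Pool.Agent.Helper52.UN.LC
import Pool.Agent.Helper88.MT.Simple
import Pool.Agent.Helper88.TR.RootData

/-!
MP_b8862a_ag, unitary (type IV) theorem, block LM: the Lie algebra theorem (assembly).
-/

open Module LieModule LieAlgebra LieAlgebra.IsKilling

attribute [local instance 100] LieRing.ofAssociativeRing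

namespace UN

namespace LM

section comb

variable {K : Type*} [Field K] [CharZero K] {M : Type*} [AddCommGroup M] [Module K M]
  {B : LinearMap.BilinForm K M} {s : M →ₗ[K] K} {c : K} {Φ X : Finset M}

omit [CharZero K] in
/-- The number of weights with value one is invariant under reflections. -/
theorem r_refl (h : USL B s c Φ X) (a : M) {b : M} (hb : b ∈ Φ) [DecidableEq K] :
    (X.filter (fun x => B x (a - B a b • b) = 1)).card =
      (X.filter (fun x => B x a = 1)).card := by
  have hbb := h.two b hb
  have hin : ∀ x ∈ X, x - B x b • b ∈ X := by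
    intro x hx
    rcases h.small x hx b hb with h1 | h1 | h1 <;> rw [h1]
    · exact (by
        have := h.xsub x hx (-b) (h.neg b hb) (by rw [map_neg, h1, neg_neg])
        simpa using this)
    · simpa using hx
    · simpa using h.xsub x hx b hb h1
  have hinv : ∀ x : M, (x - B x b • b) - B (x - B x b • b) b • b = x := by
    intro x
    have e : B (x - B x b • b) b = - B x b := by
      simp only [map_sub, map_smul, LinearMap.sub_apply, LinearMap.smul_apply, hbb, smul_eq_mul]
      ring
    rw [e, neg_smul]
    abel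
  have hB : ∀ x y : M, B (x - B x b • b) (y - B y b • b) = B x y := by
    intro x y
    simp only [map_sub, map_smul, LinearMap.sub_apply, LinearMap.smul_apply, hbb, smul_eq_mul]
    rw [h.symm b y]
    ring
  refine Finset.card_bij' (fun x _ => x - B x b • b) (fun x _ => x - B x b • b) ?_ ?_ ?_ ?_
  · intro x hx
    rw [Finset.mem_filter] at hx ⊢
    refine ⟨hin x hx.1, ?_⟩
    rw [← hB (x - B x b • b) a, hinv]
    exact hx.2
  · intro x hx
    rw [Finset.mem_filter] at hx ⊢
    refine ⟨hin x hx.1, ?_⟩
    rw [hB]
    exact hx.2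
  · intro x _
    exact hinv x
  · intro x _
    exact hinv x

open Classical in
/-- If all roots of value one have one weight with value one, then all roots. -/
theorem r_all (h : USL B s c Φ X)
    (h1 : ∀ a ∈ Φ, s a = 1 → (X.filter (fun x => B x a = 1)).card = 1) :
    ∀ a ∈ Φ, (X.filter (fun x => B x a = 1)).card = 1 := by
  have hm : ∀ a ∈ Φ, s a = -1 → (X.filter (fun x => B x a = 1)).card = 1 := by
    intro a ha hs
    have h2 := r_refl h a ha
    rw [h.two a ha] at h2
    rw [← h2]
    have e : a - (2 : K) • a = -a := by rw [two_smul]; abel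
    rw [e]
    exact h1 (-a) (h.neg a ha) (by rw [map_neg, hs, neg_neg])
  intro a ha
  rcases CR2.vals h ha with h2 | h2 | h2
  · exact hm a ha h2
  · have ha0 : a ≠ 0 := by
      intro h0
      have h3 := h.two a ha
      rw [h0, map_zero] at h3
      exact two_ne_zero h3.symm
    obtain ⟨b, hb, hsb, hab⟩ : ∃ b ∈ Φ, s b = 1 ∧ B a b ≠ 0 := by
      by_contra! hcon
      exact ha0 (h.hit a hcon)
    have hne1 : a ≠ b := by
      rintro rfl
      rw [h2] at hsb
      exact zero_ne_one hsb
    have hne2 : a ≠ -b := by
      rintro rfl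
      rw [map_neg, hsb] at h2
      exact one_ne_zero (neg_eq_zero.mp h2)
    have h3 := r_refl h a hb
    rcases h.pair a ha b hb hne1 hne2 with h4 | h4 | h4
    · rw [← h3, h4, neg_one_smul, sub_neg_eq_add]
      exact h1 _ (CR2.add_mem h ha hb h4) (by rw [map_add, h2, hsb, zero_add])
    · exact absurd h4 hab
    · rw [← h3, h4, one_smul]
      exact hm _ (h.sub a ha b hb h4) (by rw [map_sub, h2, hsb, zero_sub])
  · exact h1 a ha h2

end comb

end LM

section lie

open MTP MTP.MF Pool.Agent.Helper54.MT

variable {K : Type*} [Field K] [CharZero K] [IsAlgClosed K] {V : Type*} [AddCommGroup V]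
  [Module K V] [FiniteDimensional K V]

open Polynomial in
omit [IsAlgClosed K] [FiniteDimensional K V] in
/-- Translates of idempotents are semisimple. -/
lemma LM.semisimple {P : Module.End K V} (hP : P * P = P) (d : K) :
    (P - d • (1 : Module.End K V)).IsSemisimple := by
  apply Module.End.isSemisimple_of_squarefree_aeval_eq_zero
    (p := ((X - C (-d)) * (X - C (1 - d)) : K[X]))
  · have : Separable ((X - C (-d)) * (X - C (1 - d)) : K[X]) := by
      apply Separable.mul (separable_X_sub_C) (separable_X_sub_C)
      apply Polynomial.isCoprime_X_sub_C_of_isUnit_sub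
      have : -d - (1 - d) = (-1 : K) := by ring
      rw [this]
      exact isUnit_one.neg
    exact this.squarefree
  · have e1 : aeval (P - d • (1 : Module.End K V)) (X - C (-d) : K[X]) = P := by
      rw [map_sub, aeval_X, aeval_C, Algebra.algebraMap_eq_smul_one, neg_smul]
      abel
    have e2 : aeval (P - d • (1 : Module.End K V)) (X - C (1 - d) : K[X]) = P - 1 := by
      rw [map_sub, aeval_X, aeval_C, Algebra.algebraMap_eq_smul_one, sub_smul, one_smul]
      abel
    rw [map_mul, e1, e2, mul_sub, hP, mul_one, sub_self]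

open Classical in
omit [CharZero K] [IsAlgClosed K] [FiniteDimensional K V] in
/-- The rank of a diagonal idempotent. -/
lemma LM.rank_idem {I : Type*} [Fintype I] (v : Basis I K V) {P : Module.End K V} (a : I → K)
    (hv : ∀ i, P (v i) = a i • v i) (ha : ∀ i, a i = 1 ∨ a i = 0) :
    rk P = (Finset.univ.filter (fun i => a i = 1)).card := by
  have hr : LinearMap.range P = Submodule.span K (Set.range (fun i : {i // a i = 1} => v i.1)) := by
    apply le_antisymm
    · rintro _ ⟨u, rfl⟩
      rw [← v.sum_repr u, map_sum]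
      refine Submodule.sum_mem _ fun i _ => ?_
      rw [map_smul, hv]
      rcases ha i with h | h
      · rw [h, one_smul]
        exact Submodule.smul_mem _ _ (Submodule.subset_span ⟨⟨i, h⟩, rfl⟩)
      · rw [h, zero_smul, smul_zero]
        exact zero_mem _
    · rw [Submodule.span_le]
      rintro _ ⟨⟨i, hi⟩, rfl⟩
      exact ⟨v i, by rw [hv, hi, one_smul]⟩
  rw [rk, hr, finrank_span_eq_card, Fintype.card_subtype]
  exact v.linearIndependent.comp _ Subtype.val_injective

/-- LM: the Lie algebra theorem (assembly). -/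
theorem lie_main {L : LieSubalgebra K (Module.End K V)}
    (hirr : ∀ W : Submodule K V, (∀ z ∈ L, ∀ w ∈ W, z w ∈ W) → W = ⊥ ∨ W = ⊤)
    (htr : ∀ z ∈ L, LinearMap.trace K V z = 0) (hsimple : IsSimple K L)
    {P : Module.End K V} (hP : P * P = P) (h0 : P ≠ 0) (h1 : P ≠ 1) {d : K}
    (hd : P - d • 1 ∈ L) (hpq : 2 * rk P ≠ finrank K V)
    {N : Module.End K V} (hN : N ∈ L) (hNN : N * N = 0) (hN0 : N ≠ 0) :
    (∀ z, LinearMap.trace K V z = 0 → z ∈ L) ∨
    ∃ n k, 2 ≤ k ∧ k + 2 ≤ n ∧ n ≠ 2 * k ∧ finrank K V = n.choose k ∧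
      rk P = (n - 1).choose k ∧ rk N = (n - 2).choose (k - 1) := by
  classical
  have hV : Nontrivial V := by
    by_contra hcon
    rw [not_nontrivial_iff_subsingleton] at hcon
    exact hN0 (Subsingleton.elim _ _)
  have hk : IsKilling K L := killing_tr hirr htr
  obtain ⟨H, hH, hsH⟩ := exists_cartan_end (L := L) ⟨P - d • 1, hd⟩ (LM.semisimple hP d)
  have hirrR : (rootSystem H).IsIrreducible := inferInstance
  have hne : Nonempty H.root := by
    by_contra hcon
    rw [not_nonempty_iff] at hcon
    have hN : Nontrivial H := RootPairing.IsIrreducible.nontrivial' (rootSystem H)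
    have h1 : (⊤ : Submodule K H) = ⊥ := by
      have h2 : (rootSystem H).corootSpan K = ⊤ := RootPairing.IsRootSystem.span_coroot_eq_top
      rw [← h2, RootPairing.corootSpan, Set.range_eq_empty, Submodule.span_empty]
    exact bot_ne_top h1.symm
  have hirr' : ∀ W : Submodule K V, (∀ x : L, ∀ u ∈ W, ⁅x, u⁆ ∈ W) → W = ⊥ ∨ W = ⊤ :=
    fun W hW => hirr W fun z hz w hw => hW ⟨z, hz⟩ w hw
  have hfaith : ∀ x : L, (∀ u : V, ⁅x, u⁆ = 0) → x = 0 := by
    intro x hx
    apply Subtype.ext
    ext u
    exact hx u
  obtain ⟨n, ⟨B⟩⟩ := exists_WB (V := V) (H := H) hirr'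
  set s' : H := ⟨⟨P - d • 1, hd⟩, hsH⟩ with hs'
  have hPv : ∀ i, P (B.v i) = (B.w i s' + d) • B.v i := by
    intro i
    have h2 : (P - d • (1 : Module.End K V)) (B.v i) = B.w i s' • B.v i := B.lie_v i s'
    rw [add_smul, ← h2]
    simp
  have hPw : ∀ i, B.w i s' + d = 1 ∨ B.w i s' + d = 0 := by
    intro i
    have h2 : P (P (B.v i)) = P (B.v i) := LinearMap.congr_fun hP (B.v i)
    rw [hPv, map_smul, hPv, smul_smul] at h2
    have h3 := smul_left_injective K (B.v.ne_zero i) h2
    have h4 : (B.w i s' + d - 1) * (B.w i s' + d) = 0 := by linear_combination h3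
    rcases mul_eq_zero.mp h4 with h5 | h5
    · left; linear_combination h5
    · right; exact h5
  set c : K := 1 - d with hc
  have hsB : ∀ i, B.w i s' = c ∨ B.w i s' = c - 1 := by
    intro i
    rcases hPw i with h2 | h2
    · left; rw [hc]; linear_combination h2
    · right; rw [hc]; linear_combination h2
  have hs0 : s' ≠ 0 := by
    intro h2
    have h3 : P - d • (1 : Module.End K V) = 0 := by
      have := congrArg (fun t : H => ((t : L) : Module.End K V)) h2
      exact this
    rw [sub_eq_zero] at h3
    have h4 : (d * d) • (1 : Module.End K V) = d • 1 := by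
      rw [h3] at hP
      rw [← hP, smul_mul_smul_comm, one_mul]
    obtain ⟨v, hv⟩ := exists_ne (0 : V)
    have h5 := LinearMap.congr_fun h4 v
    have h6 : d * d = d := smul_left_injective K hv h5
    have h7 : d * (d - 1) = 0 := by linear_combination h6
    rcases mul_eq_zero.mp h7 with h8 | h8
    · exact h0 (by rw [h3, h8, zero_smul])
    · exact h1 (by rw [h3, sub_eq_zero.mp h8, one_smul])
  have hsq : ∀ (α : H.root) (x : L), x ∈ rootSpace H α.1 →
      toEnd K L V x * toEnd K L V x = 0 := fun α x hx => sq_zero B hfaith hsB hs0 α hx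
  have hinj := mult_one B hirr' hsq
  have hU := usit B hirr' hfaith hsq hsB hs0
  set X : Finset (Dual K H) := Finset.univ.image B.w with hX
  have hXi : ∀ p : Dual K H → Prop, (X.filter p).card =
      (Finset.univ.filter (fun i => p (B.w i))).card := by
    intro p
    rw [hX, Finset.filter_image, Finset.card_image_of_injective _ hinj]
  -- the ranks
  have hcardX : (X.filter (fun x => Module.Dual.eval K H s' x = c)).card = rk P := by
    rw [hXi, LM.rank_idem B.v (fun i => B.w i s' + d) hPv hPw]
    congr 1
    apply Finset.filter_congr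
    intro i _
    change B.w i s' = c ↔ B.w i s' + d = 1
    rw [hc]
    constructor
    · intro h2; linear_combination h2
    · intro h2; linear_combination h2
  have hfin : (X.filter (fun x => Module.Dual.eval K H s' x = c)).card +
      (X.filter (fun x => Module.Dual.eval K H s' x = c - 1)).card = finrank K V := by
    rw [hXi, hXi, finrank_eq_card_basis B.v, ← Finset.card_univ,
      ← Finset.card_union_of_disjoint]
    · congr 1
      ext i
      simp only [Finset.mem_union, Finset.mem_filter, Finset.mem_univ, true_and, iff_true]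
      exact hsB i
    · rw [Finset.disjoint_filter]
      intro i _ h2 h3
      rw [h2] at h3
      exact one_ne_zero (by linear_combination h3 : (1 : K) = 0)
  have hpq' : (X.filter (fun x => Module.Dual.eval K H s' x = c)).card ≠
      (X.filter (fun x => Module.Dual.eval K H s' x = c - 1)).card := by
    intro h2
    rw [← h2, hcardX] at hfin
    exact hpq (by omega)
  have hspan : (rootSystem H).rootSpan K = ⊤ := RootPairing.IsRootSystem.span_root_eq_top
  obtain ⟨α₀⟩ := hne
  set l : ℤ := len (rootSystem H) α₀ with hl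
  have hlen : ∀ α, len (rootSystem H) α = l := fun α => hU.len_eq hspan hpq' α α₀
  have hS := hU.toUSL hspan hlen
  have hbf : ∀ (x : Dual K H) (α : H.root), TR.bf (rootSystem H) l x ((rootSystem H).root α) =
      x (coroot α.1) := fun x α => TR.bf_one (hlen α) x
  have hmem : ∀ α, (rootSystem H).root α ∈ Finset.univ.image (rootSystem H).root :=
    fun α => Finset.mem_image_of_mem _ (Finset.mem_univ α)
  have hcnt : ∀ α, (X.filter (fun x => TR.bf (rootSystem H) l x ((rootSystem H).root α) = 1)).card =
      (Finset.univ.filter (fun i => B.w i (coroot α.1) = 1)).card := by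
    intro α
    rw [hXi]
    simp only [hbf]
  by_cases hr : ∃ a ∈ Finset.univ.image (rootSystem H).root, Module.Dual.eval K H s' a = 1 ∧
      (X.filter (fun x => TR.bf (rootSystem H) l x a = 1)).card ≠ 1
  · right
    obtain ⟨n, k, hk2, hkn, hnk, hp, hq, hra, hQ⟩ := hS.count hpq'
      (hS.adjacent (fun a ha hsa => hS.local_form hpq' ha hsa) hr) hr
    refine ⟨n, k, hk2, hkn, hnk, ?_, ?_, ?_⟩
    · rw [← hfin, hp, hq]
      obtain ⟨n', rfl⟩ : ∃ n', n = n' + 1 := ⟨n - 1, by omega⟩
      obtain ⟨k', rfl⟩ : ∃ k', k = k' + 1 := ⟨k - 1, by omega⟩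
      rw [Nat.add_sub_cancel, Nat.add_sub_cancel, Nat.choose_succ_succ, add_comm]
    · rw [← hcardX, hp]
    · obtain ⟨α, hα⟩ := rank_of_sq_zero B hinj hsq (by
        intro α β hαβ hne2
        have hp := hS.pair _ (hmem α) _ (hmem β)
          (fun h2 => hαβ ((rootSystem H).root.injective h2)) hne2
        have e : TR.bf (rootSystem H) l ((rootSystem H).root α) ((rootSystem H).root β) =
            ((rootSystem H).pairingIn ℤ α β : K) := by
          rw [TR.bf_one (hlen β), pair_cast]
        rw [e] at hp
        rcases hp with h2 | h2 | h2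
        · left; exact_mod_cast h2
        · right; left; exact_mod_cast h2
        · right; right; exact_mod_cast h2) (by
        intro α β h2
        obtain ⟨x, hx, hxa, hxb⟩ := hQ _ (hmem α) _ (hmem β) (by
          rw [TR.bf_one (hlen β), pair_cast, h2, Int.cast_zero])
        rw [hX, Finset.mem_image] at hx
        obtain ⟨i, -, rfl⟩ := hx
        rw [hbf] at hxa hxb
        exact ⟨i, hxa, hxb⟩) hN hNN hN0
      rw [hα, ← hcnt, hra _ (hmem α)]
  · left
    push Not at hr
    intro z hz
    refine sl_of_one B hinj hsq ?_ ?_ hz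
    · intro i j hij
      obtain ⟨g, hg, h2, h3⟩ := hS.sep (B.w i) (Finset.mem_image_of_mem _ (Finset.mem_univ i))
        (B.w j) (Finset.mem_image_of_mem _ (Finset.mem_univ j)) (fun h2 => hij (hinj h2))
      rw [Finset.mem_image] at hg
      obtain ⟨α, -, rfl⟩ := hg
      rw [hbf] at h2 h3
      exact ⟨α, h2, h3⟩
    · intro α
      rw [← hcnt]
      exact LM.r_all hS hr _ (hmem α)

end lie

end UN
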